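import Pool.Agent.TH467.OC.Count

/-!
# Two perfect matchings whose intersection contains no odd cut

Multigraphs with edge set `E`, the ends of the edge `e` are `a e` and `b e`.

* `delta a b X`: the cut `δ(X)`, the edges with exactly one end in `X`.
* `PM a b M`: `M` is a perfect matching.
* `OddCut a b D`: `D = δ(X)` for a set `X` with an odd number of vertices.
* `badCuts a b`: the odd cuts `D` which are contained in a perfect matching and contain no other odd cut.

Proof.  By Edmonds' theorem there is a probability distribution on the perfect matchings for which all edges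
have probability `1/3`; it contains a bad cut `D` with probability at most `(|D| - 3) / (3 (|D| - 1))`.
-/

set_option autoImplicit false

namespace Pool.Agent.Results.MP_1dc4d0_co.FewOddCuts

open Finset Pool.Agent.TH467.OC

/-- A loopless cubic graph without bridges has two perfect matchings whose intersection contains no cut
with an odd number of edges, if the bad cuts `D` satisfy `∑ ((|D| - 3) / (|D| - 1)) ^ 2 < 9`, in
particular if at most nine bad cuts have five or more edges, or if at most 35 have five edges and none
has more. -/
theorem result {V E : Type} [Fintype V] [DecidableEq V] [Fintype E] [DecidableEq E] (a b : E → V)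
    (noloop : ∀ e, a e ≠ b e)
    (cubic : ∀ v, (univ.filter fun e => a e = v ∨ b e = v).card = 3)
    (bridgeless : ∀ X : Finset V, (delta a b X).card ≠ 1)
    (few : ∑ D ∈ badCuts a b, (((D.card : ℝ) - 3) / (D.card - 1)) ^ 2 < 9 ∨
      ((badCuts a b).filter fun D => 5 ≤ D.card).card ≤ 9 ∨
      (((badCuts a b).filter fun D => 5 ≤ D.card).card ≤ 35 ∧ ∀ D ∈ badCuts a b, D.card ≤ 5)) :
    ∃ M₁ M₂, PM a b M₁ ∧ PM a b M₂ ∧
      ∀ X : Finset V, Odd (delta a b X).card → ¬ delta a b X ⊆ M₁ ∩ M₂ :=
  two_of_few (rg_three noloop cubic bridgeless) few

end Pool.Agent.Results.MP_1dc4d0_co.FewOddCuts
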